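import Pool.Agent.MP_1ca372_al.H38.Final
import Pool.Agent.MP_1ca372_al.H38.Four
import Pool.Agent.MP_1ca372_al.H38.Five

namespace Pool.Agent.Results.MP_1ca372_al.A3A4RD

open Pool.Agent.MP_1ca372_al.H73 Pool.Agent.MP_1ca372_al.H38

/-- A finitely generated group mapping to `PGL n K`, `n = 4` or `5`, `K` discretely valued with
finite residue field, has property (RD) if the stabilisers of the homothety classes of lattices have
bounded order, or if they are finite and there are finitely many orbits of classes. -/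
theorem result (O K : Type*) [CommRing O] [IsDomain O] [IsDiscreteValuationRing O]
    [Finite (IsLocalRing.ResidueField O)] [Field K] [Algebra O K] [IsFractionRing O K]
    (n : ℕ) (hn : n = 4 ∨ n = 5)
    (Γ : Type*) [Group Γ] (ρ : Γ →* Matrix.ProjGenLinGroup (Fin n) K)
    (hb : (∃ N : ℕ, ∀ L : Submodule O (Fin n → K), L.IsLattice K → (stab ρ L).encard ≤ N) ∨
      ((∀ L : Submodule O (Fin n → K), L.IsLattice K → (stab ρ L).Finite) ∧
        ∃ F : Finset (Submodule O (Fin n → K)), ∀ L : Submodule O (Fin n → K), L.IsLattice K →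
          ∃ (γ : Γ) (g : GL (Fin n) K), ∃ L' ∈ F,
            Matrix.ProjGenLinGroup.mk g = ρ γ ∧ g.val.mulVec '' L = L'))
    (k : ℕ) (gen : Fin k → Γ) (hgen : ∀ x, ∃ w : List (Fin k), (w.map gen).prod = x) : RD gen := by
  rcases hn with rfl | rfl
  · exact game4.elim fun g => rd_pgl g O K Γ ρ hb gen hgen
  · exact game5.elim fun g => rd_pgl g O K Γ ρ hb gen hgen

end Pool.Agent.Results.MP_1ca372_al.A3A4RD
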