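import Pool.Agent.MP_1ca372_al.H84.RD

namespace Pool.Agent.Results.MP_1ca372_al.Amenable

open scoped ENNReal Pointwise

universe u

/-- Every amenable automatic group has property (RD). -/
theorem result (G : Type u) [Group G] (n : ℕ) (gen : Fin n → G) (L : Language (Fin n))
    (_hsym : ∀ i : Fin n, ∃ j : Fin n, gen j = (gen i)⁻¹)
    (hreg : ∃ (σ : Type) (M : DFA (Fin n) σ), Finite σ ∧ M.accepts = L)
    (hsurj : ∀ x : G, ∃ w ∈ L, (w.map gen).prod = x)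
    (hft : ∃ K : ℕ, ∀ u ∈ L, ∀ v ∈ L,
      (∃ w : List (Fin n), w.length ≤ 1 ∧ (u.map gen).prod * (w.map gen).prod = (v.map gen).prod) →
      ∀ t : ℕ, ∃ w : List (Fin n), w.length ≤ K ∧
        ((u.take t).map gen).prod * (w.map gen).prod = ((v.take t).map gen).prod)
    (ham : ∃ m : Set G → ℝ≥0∞, m Set.univ = 1 ∧
      (∀ s t : Set G, Disjoint s t → m (s ∪ t) = m s + m t) ∧
      ∀ (g : G) (s : Set G), m (g • s) = m s) :
    ∃ C : ℝ, ∃ s : ℕ, ∀ f g : G →₀ ℂ,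
      (∑' x : G, ‖∑ y ∈ f.support, f y * g (y⁻¹ * x)‖ ^ 2) ≤
        C * (∑ y ∈ f.support, ‖f y‖ ^ 2 *
          (1 + ((sInf {k : ℕ | ∃ w : List (Fin n), w.length = k ∧ (w.map gen).prod = y} : ℕ) : ℝ)) ^
            (2 * s)) * ∑ z ∈ g.support, ‖g z‖ ^ 2 := by
  obtain ⟨σ, M, hσ, rfl⟩ := hreg
  obtain ⟨K, hK⟩ := hft
  obtain ⟨m, h1, h2, h3⟩ := ham
  obtain ⟨H, hi, hc⟩ := MP_1ca372_al.H84.va_of_amenable (gen := gen) hsurj hK h1 h2 h3
  exact MP_1ca372_al.H84.rd_of_va (fun x => (hsurj x).imp fun _ h => h.2) hi hc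

end Pool.Agent.Results.MP_1ca372_al.Amenable
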