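import Pool.Agent.MP_1ca372_al.H73.Main

namespace Pool.Agent.Results.MP_1ca372_al.C2RD

open Pool.Agent.MP_1ca372_al.H73

universe u v

/-- A finitely generated group acting on a building of type affine C2 has property (RD) if the
valencies and the orders of the vertex stabilisers are bounded, or if they are finite and there are
finitely many orbits of vertices. -/
theorem result (Γ : Type u) [Group Γ] (V : Type v) (G : SimpleGraph V) (𝒜 : Set (cox ↪g G))
    (h : IsBuilding G 𝒜) [MulAction Γ V] (hadj : ∀ (γ : Γ) u v, G.Adj u v → G.Adj (γ • u) (γ • v))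
    (hb : (∃ N : ℕ, ∀ v, (G.neighborSet v).encard ≤ N ∧
        (MulAction.stabilizer Γ v : Set Γ).encard ≤ N) ∨
      ((∀ v, (G.neighborSet v).Finite) ∧ (∀ v : V, (MulAction.stabilizer Γ v : Set Γ).Finite) ∧
        ∃ F : Finset V, ∀ v : V, ∃ γ : Γ, γ • v ∈ F))
    (n : ℕ) (gen : Fin n → Γ) (hgen : ∀ x, ∃ w : List (Fin n), (w.map gen).prod = x) : RD gen := by
  obtain ⟨N, hN⟩ := hb.elim id fun ⟨h1, h2, F, hF⟩ => unif hadj F hF h1 h2
  exact rd_building h hadj N (fun v => (hN v).1) (fun v => (hN v).2) gen hgen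

end Pool.Agent.Results.MP_1ca372_al.C2RD
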